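import Mathlib
import Pool.Agent.Helper533.Deny.Final

/-!
The infinity sets of `𝒜`-superharmonic functions on `ℝⁿ` are exactly the `𝒜`-polar `G_δ` sets.
-/

set_option autoImplicit false

open Set Filter Topology MeasureTheory

namespace Pool.Agent.Results.MP_9b58c5_an.InfinitySets

open Pool.Agent.Helper533.Deny
open Pool.Agent.Helper533.Polar.Stmt (Sp IsOperator)

/-- Let `n ≥ 1`, `1 < p < ∞`, let `w` be a `p`-admissible weight and `𝒜` an operator satisfying the
structure conditions with respect to `w`. A set `E ⊆ ℝⁿ` is the infinity set `{u = ∞}` of an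
`𝒜`-superharmonic function `u` on `ℝⁿ` if and only if `E` is an `𝒜`-polar `G_δ` set. -/
theorem result (n : ℕ) (hn : 1 ≤ n) (p : ℝ) (hp : 1 < p) (w : Sp n → ℝ) (hw : IsAdmissible p w)
    (α β : ℝ) (𝒜 : Sp n → Sp n → Sp n) (hA : IsOperator p α β w 𝒜) (E : Set (Sp n)) :
    (∃ u : Sp n → EReal, IsSuperharmonic 𝒜 p w univ u ∧ E = {x | u x = ⊤}) ↔
      IsGδ E ∧ IsPolar 𝒜 p w E := by
  constructor
  · rintro ⟨u, hu, hE⟩
    refine ⟨?_, univ, u, isOpen_univ, subset_univ _, hu, fun x hx => ?_⟩
    · have h1 : E = ⋂ k : ℕ, {x | ((k : ℝ) : EReal) < u x} := by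
        rw [hE]
        ext x
        rw [mem_iInter]
        constructor
        · intro h k
          have h' : u x = ⊤ := h
          show ((k : ℝ) : EReal) < u x
          rw [h']
          exact EReal.coe_lt_top _
        · intro h
          show u x = ⊤
          rw [EReal.eq_top_iff_forall_lt]
          intro y
          obtain ⟨k, hk⟩ := exists_nat_gt y
          exact lt_trans (EReal.coe_lt_coe_iff.2 hk) (h k)
      rw [h1]
      refine IsGδ.iInter_of_isOpen fun k => ?_
      exact (lowerSemicontinuousOn_univ_iff.1 hu.lsc).isOpen_preimage _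
    · rw [hE] at hx
      exact hx
  · rintro ⟨hG, hpol⟩
    obtain ⟨u, hu, hE⟩ :=
      Pool.Agent.Helper533.Polar.deny_theorem hn hp hw hA hG hpol
    exact ⟨u, hu, hE.symm⟩

end Pool.Agent.Results.MP_9b58c5_an.InfinitySets
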